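import Mathlib

/-!
# Littlewood–Offord for choices of one element in every pair
-/

set_option autoImplicit false

open Finset

namespace Pool.Agent.X208.CZ

/-- Erdős–Littlewood–Offord, for subset sums of nonzero real numbers. -/
theorem LO {ι : Type} [Fintype ι] [DecidableEq ι] (a : ι → ℝ) (ha : ∀ k, a k ≠ 0) (b : ℝ) :
    (univ.filter fun x : ι → Bool => ∑ k, (if x k then a k else 0) = b).card ≤
      (Fintype.card ι).choose (Fintype.card ι / 2) := by
  classical
  let A : (ι → Bool) → Finset ι := fun x => univ.filter fun k => x k = decide (0 < a k)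
  have hA : Function.Injective A := by
    intro x y h
    funext k
    have h1 : k ∈ A x ↔ k ∈ A y := by rw [h]
    simp only [A, mem_filter, mem_univ, true_and] at h1
    cases hx : x k <;> cases hy : y k <;> cases hd : decide (0 < a k) <;> simp_all
  have hsum : ∀ x, ∑ k, (if x k then a k else 0) =
      ∑ k, (if k ∈ A x then max (a k) 0 else min (a k) 0) := by
    intro x
    refine sum_congr rfl fun k _ => ?_
    simp only [A, mem_filter, mem_univ, true_and]
    rcases lt_or_gt_of_ne (ha k) with h | h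
    · have h1 : decide (0 < a k) = false := by simp; exact h.le
      rw [h1, max_eq_right h.le, min_eq_left h.le]
      cases x k <;> simp
    · have h1 : decide (0 < a k) = true := by simp; exact h
      rw [h1, max_eq_left h.le, min_eq_right h.le]
  have hlt : ∀ k, min (a k) 0 < max (a k) 0 := by
    intro k
    rcases lt_or_gt_of_ne (ha k) with h | h
    · rw [max_eq_right h.le, min_eq_left h.le]; exact h
    · rw [max_eq_left h.le, min_eq_right h.le]; exact h
  have hmono : ∀ x y, A x ⊆ A y → A x ≠ A y →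
      ∑ k, (if x k then a k else 0) < ∑ k, (if y k then a k else 0) := by
    intro x y hxy hne
    rw [hsum, hsum]
    obtain ⟨k, hk1, hk2⟩ := exists_of_ssubset (hxy.ssubset_of_ne hne)
    refine sum_lt_sum (fun l _ => ?_) ⟨k, mem_univ k, ?_⟩
    · by_cases h1 : l ∈ A x
      · rw [if_pos h1, if_pos (hxy h1)]
      · rw [if_neg h1]
        split_ifs
        · exact (hlt l).le
        · exact le_rfl
    · rw [if_pos hk1, if_neg hk2]
      exact hlt k
  set S := univ.filter fun x : ι → Bool => ∑ k, (if x k then a k else 0) = b with hS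
  have hanti : IsAntichain (· ⊆ ·) (SetLike.coe (S.image A)) := by
    intro s hs t ht hst hsub
    rw [SetLike.mem_coe, mem_image] at hs ht
    obtain ⟨x, hx, rfl⟩ := hs
    obtain ⟨y, hy, rfl⟩ := ht
    have h1 := hmono x y hsub hst
    rw [hS, mem_filter] at hx hy
    rw [hx.2, hy.2] at h1
    exact lt_irrefl _ h1
  have h2 := hanti.sperner
  rw [card_image_of_injective S hA] at h2
  exact h2

section

variable {X : Type} [Fintype X] [DecidableEq X] {c : X → X}

/-- A choice of one element in every pair `{x, c x}`. -/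
def IsT (c : X → X) (Φ : Finset X) : Prop := ∀ x, x ∈ Φ ↔ c x ∉ Φ

instance (c : X → X) : DecidablePred (IsT c) := fun Φ => by
  unfold IsT
  infer_instance

/-- The finset of all choices. -/
def Ts (c : X → X) : Finset (Finset X) := univ.filter (IsT c)

/-- The function which is true at the elements `i` and `c i` for `i ∈ s` with `ε i`. -/
def ext (c : X → X) (s : Finset X) (ε : ↥s → Bool) (x : X) : Bool :=
  (if h : x ∈ s then ε ⟨x, h⟩ else false) || (if h : c x ∈ s then ε ⟨c x, h⟩ else false)

/-- The flip. -/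
def flip (c : X → X) (s : Finset X) (ε : ↥s → Bool) (Φ : Finset X) : Finset X :=
  univ.filter fun x => (ext c s ε x ^^ decide (x ∈ Φ)) = true

theorem mem_flip (s : Finset X) (ε : ↥s → Bool) (Φ : Finset X) (x : X) :
    x ∈ flip c s ε Φ ↔ (ext c s ε x ^^ decide (x ∈ Φ)) = true := by
  simp [flip]

theorem flip_flip (s : Finset X) (ε : ↥s → Bool) (Φ : Finset X) :
    flip c s ε (flip c s ε Φ) = Φ := by
  ext x
  rw [mem_flip]
  have h : decide (x ∈ flip c s ε Φ) = (ext c s ε x ^^ decide (x ∈ Φ)) := by
    rw [Bool.eq_iff_iff, decide_eq_true_iff, mem_flip]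
  rw [h]
  cases ext c s ε x <;> simp

theorem ext_c (hc : ∀ x, c (c x) = x) (s : Finset X) (ε : ↥s → Bool) (x : X) :
    ext c s ε (c x) = ext c s ε x := by
  unfold ext
  rw [Bool.or_comm]
  congr 1
  simp only [hc]

theorem flip_isT (hc : ∀ x, c (c x) = x) (s : Finset X) (ε : ↥s → Bool) {Φ : Finset X}
    (h : IsT c Φ) : IsT c (flip c s ε Φ) := by
  intro x
  rw [mem_flip, mem_flip, ext_c hc]
  have h1 := h x
  cases ext c s ε x <;> simp [h1]

/-- The weight of a choice. -/
noncomputable def wt (w : X → ℝ) (Φ : Finset X) : ℝ := ∑ x, if x ∈ Φ then w x else 0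

/-- The change of the weight under the flip. -/
theorem wt_flip (hc : ∀ x, c (c x) = x) (hc' : ∀ x, c x ≠ x) (w : X → ℝ) (s : Finset X)
    (hs : ∀ i ∈ s, ∀ j ∈ s, i ≠ c j) (ε : ↥s → Bool) {Φ : Finset X} (h : IsT c Φ) :
    wt w (flip c s ε Φ) = wt w Φ +
      ∑ i : ↥s, if ε i then (if i.1 ∈ Φ then w (c i) - w i else w i - w (c i)) else 0 := by
  classical
  have h1 : ∀ x, (if x ∈ flip c s ε Φ then w x else 0) = (if x ∈ Φ then w x else 0) +
      (if ext c s ε x then (if x ∈ Φ then - w x else w x) else 0) := by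
    intro x
    rw [if_congr (mem_flip s ε Φ x) rfl rfl]
    by_cases hx : x ∈ Φ <;> cases ext c s ε x <;> simp [hx]
  have h2 : ∑ x, (if ext c s ε x then (if x ∈ Φ then - w x else w x) else 0) =
      ∑ i : ↥s, if ε i then (if i.1 ∈ Φ then w (c i) - w i else w i - w (c i)) else 0 := by
    set g : X → ℝ := fun x => if x ∈ Φ then - w x else w x with hg
    have h3 : ∀ x, (if ext c s ε x then g x else 0) =
        (if hx : x ∈ s then (if ε ⟨x, hx⟩ then g x else 0) else 0) +
        (if hx : c x ∈ s then (if ε ⟨c x, hx⟩ then g x else 0) else 0) := by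
      intro x
      unfold ext
      by_cases hx : x ∈ s
      · have hcx : c x ∉ s := fun h4 => hs x hx (c x) h4 (hc x).symm
        rw [dif_pos hx, dif_neg hcx, dif_pos hx, dif_neg hcx]
        simp
      · by_cases hcx : c x ∈ s
        · rw [dif_neg hx, dif_pos hcx, dif_neg hx, dif_pos hcx]
          simp
        · rw [dif_neg hx, dif_neg hcx, dif_neg hx, dif_neg hcx]
          simp
    rw [Finset.sum_congr rfl fun x _ => h3 x, Finset.sum_add_distrib]
    have h4 : ∀ f : X → ℝ, ∑ x, (if hx : x ∈ s then (if ε ⟨x, hx⟩ then f x else 0) else 0) =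
        ∑ i : ↥s, if ε i then f i else 0 := by
      intro f
      rw [← Finset.sum_subset (Finset.subset_univ s)]
      · rw [← Finset.sum_coe_sort]
        refine Finset.sum_congr rfl fun i _ => ?_
        rw [dif_pos i.2]
      · intro x _ hx
        rw [dif_neg hx]
    have h5 : ∑ x, (if hx : c x ∈ s then (if ε ⟨c x, hx⟩ then g x else 0) else 0) =
        ∑ i : ↥s, if ε i then g (c i) else 0 := by
      rw [← h4 fun x => g (c x)]
      let e : X ≃ X := ⟨c, c, hc, hc⟩
      rw [← Equiv.sum_comp e]
      refine Finset.sum_congr rfl fun x _ => ?_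
      simp only [e, Equiv.coe_fn_mk, hc]
    rw [h4, h5, ← Finset.sum_add_distrib]
    refine Finset.sum_congr rfl fun i _ => ?_
    cases ε i
    · simp
    · simp only [if_true, hg]
      have h6 := h i.1
      by_cases hi : i.1 ∈ Φ
      · rw [if_pos hi, if_neg (h6.1 hi), if_pos hi]
        ring
      · have h7 : c i.1 ∈ Φ := by
          by_contra h8
          exact hi (h6.2 h8)
        rw [if_neg hi, if_pos h7, if_neg hi]
        ring
  unfold wt
  rw [Finset.sum_congr rfl fun x _ => h1 x, Finset.sum_add_distrib, h2]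

/-- **The counting law.** -/
theorem count (hc : ∀ x, c (c x) = x) (hc' : ∀ x, c x ≠ x) (w : X → ℝ) (s : Finset X)
    (hs : ∀ i ∈ s, ∀ j ∈ s, i ≠ c j) (hw : ∀ i ∈ s, w i ≠ w (c i)) (b : ℝ) :
    2 ^ s.card * ((Ts c).filter fun Φ => wt w Φ = b).card ≤
      s.card.choose (s.card / 2) * (Ts c).card := by
  classical
  have h1 : ∀ ε : ↥s → Bool, ((Ts c).filter fun Φ => wt w (flip c s ε Φ) = b).card =
      ((Ts c).filter fun Φ => wt w Φ = b).card := by
    intro ε
    refine Finset.card_bij (fun Φ _ => flip c s ε Φ) ?_ ?_ ?_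
    · intro Φ hΦ
      simp only [Ts, mem_filter, mem_univ, true_and] at hΦ ⊢
      exact ⟨flip_isT hc s ε hΦ.1, hΦ.2⟩
    · intro Φ _ Ψ _ he
      have := congrArg (flip c s ε) he
      rwa [flip_flip, flip_flip] at this
    · intro Φ hΦ
      simp only [Ts, mem_filter, mem_univ, true_and] at hΦ
      refine ⟨flip c s ε Φ, ?_, flip_flip s ε Φ⟩
      simp only [Ts, mem_filter, mem_univ, true_and]
      exact ⟨flip_isT hc s ε hΦ.1, by rw [flip_flip]; exact hΦ.2⟩
  have h2 : ∑ ε : ↥s → Bool, ((Ts c).filter fun Φ => wt w (flip c s ε Φ) = b).card =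
      2 ^ s.card * ((Ts c).filter fun Φ => wt w Φ = b).card := by
    rw [Finset.sum_congr rfl fun ε _ => h1 ε, Finset.sum_const, smul_eq_mul, Finset.card_univ]
    congr 1
    simp
  rw [← h2]
  simp only [Finset.card_filter]
  rw [Finset.sum_comm]
  have h3 : ∀ Φ ∈ Ts c, (∑ ε : ↥s → Bool, if wt w (flip c s ε Φ) = b then 1 else 0) ≤
      s.card.choose (s.card / 2) := by
    intro Φ hΦ
    have hΦ' : IsT c Φ := by simpa [Ts] using hΦ
    have h4 := LO (ι := ↥s) (fun i => if i.1 ∈ Φ then w (c i) - w i else w i - w (c i))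
      (fun i => by
        have h5 := hw i i.2
        split_ifs
        · exact sub_ne_zero.2 h5.symm
        · exact sub_ne_zero.2 h5) (b - wt w Φ)
    rw [Fintype.card_coe, Finset.card_filter] at h4
    refine le_trans (le_of_eq ?_) h4
    refine Finset.sum_congr rfl fun ε _ => ?_
    congr 1
    rw [wt_flip hc hc' w s hs ε hΦ', eq_iff_iff]
    constructor <;> intro h <;> linarith
  refine (Finset.sum_le_sum h3).trans ?_
  rw [Finset.sum_const, smul_eq_mul, mul_comm]

/-- If the weight is constant on the pairs then all the choices have the same weight. -/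
theorem wt_const (hc : ∀ x, c (c x) = x) (w : X → ℝ) (hw : ∀ x, w (c x) = w x) {Φ : Finset X}
    (h : IsT c Φ) : 2 * wt w Φ = ∑ x, w x := by
  have h1 : wt w Φ = ∑ x, if x ∈ Φ then 0 else w x := by
    unfold wt
    let e : X ≃ X := ⟨c, c, hc, hc⟩
    rw [← Equiv.sum_comp e]
    refine Finset.sum_congr rfl fun x _ => ?_
    change (if c x ∈ Φ then w (c x) else 0) = _
    rw [hw]
    have h2 := h x
    by_cases hx : x ∈ Φ
    · rw [if_neg (h2.1 hx), if_pos hx]
    · have h3 : c x ∈ Φ := by
        by_contra h4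
        exact hx (h2.2 h4)
      rw [if_pos h3, if_neg hx]
  rw [two_mul]
  nth_rewrite 2 [h1]
  unfold wt
  rw [← Finset.sum_add_distrib]
  refine Finset.sum_congr rfl fun x _ => ?_
  split_ifs <;> simp

/-- **The half law.** -/
theorem half (hc : ∀ x, c (c x) = x) (hc' : ∀ x, c x ≠ x) (w : X → ℝ) {Φ₀ : Finset X}
    (h₀ : IsT c Φ₀) (hne : wt w Φ₀ ≠ 0) :
    2 * ((Ts c).filter fun Φ => wt w Φ = 0).card ≤ (Ts c).card := by
  classical
  by_cases hex : ∃ x, w x ≠ w (c x)
  · obtain ⟨x, hx⟩ := hex
    have h1 := count hc hc' w {x} (by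
      intro i hi j hj
      rw [Finset.mem_singleton] at hi hj
      rw [hi, hj]
      exact (hc' x).symm) (by
      intro i hi
      rw [Finset.mem_singleton] at hi
      rw [hi]
      exact hx) 0
    simpa using h1
  · push Not at hex
    have h1 : (Ts c).filter (fun Φ => wt w Φ = 0) = ∅ := by
      rw [Finset.filter_eq_empty_iff]
      intro Φ hΦ h2
      have hΦ' : IsT c Φ := by simpa [Ts] using hΦ
      have h3 := wt_const hc w (fun x => (hex x).symm) hΦ'
      have h4 := wt_const hc w (fun x => (hex x).symm) h₀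
      rw [h2, mul_zero] at h3
      rw [← h3] at h4
      exact hne (by linarith)
    rw [h1]
    simp

end

end Pool.Agent.X208.CZ
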