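import Pool.Agent.X208.BR.Pk

/-!
# CM types and Colmez's class functions
-/

set_option autoImplicit false

namespace Pool.Agent.X208.CZ

open Pool.Agent.X208.BR.Pk

/-- The embeddings of the field `E` in the field of algebraic numbers. -/
def Emb (E : Fld) : Type :=
  (show IntermediateField ℚ (AlgebraicClosure ℚ) from E) →+* AlgebraicClosure ℚ

/-- The action of the Galois group of `ℚ` on the embeddings: `σψ = σ ∘ ψ`. -/
noncomputable def act {E : Fld} (σ : GalQ) (ψ : Emb E) : Emb E :=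
  ((show Gal(AlgebraicClosure ℚ/ℚ) from σ) : AlgebraicClosure ℚ →+* AlgebraicClosure ℚ).comp ψ

/-- The restriction of an embedding to a subfield. -/
noncomputable def resEmb {E E' : Fld} (h : E ≤ E') (ψ : Emb E') : Emb E :=
  RingHom.comp ψ (IntermediateField.inclusion
    (E := (show IntermediateField ℚ (AlgebraicClosure ℚ) from E))
    (F := (show IntermediateField ℚ (AlgebraicClosure ℚ) from E')) h).toRingHom

/-- `c` is the complex conjugation of an embedding of the algebraic numbers in `ℂ`. -/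
def IsConj (c : GalQ) : Prop :=
  ∃ ι : AlgebraicClosure ℚ →+* ℂ, ∀ x,
    ι ((show Gal(AlgebraicClosure ℚ/ℚ) from c) x) = (starRingEnd ℂ) (ι x)

/-- `E` is a CM field: a number field with an automorphism `ρ ≠ 1` which becomes the complex conjugation
in every embedding. -/
def IsCM (c : GalQ) (E : Fld) : Prop :=
  IsNF E ∧ ∃ ρ : (show IntermediateField ℚ (AlgebraicClosure ℚ) from E) →+*
      (show IntermediateField ℚ (AlgebraicClosure ℚ) from E),
    ρ ≠ RingHom.id _ ∧ ∀ ψ : Emb E, act c ψ = RingHom.comp ψ ρ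

/-- `Φ` is a CM type: of every two complex conjugate embeddings it contains exactly one. -/
def IsType (c : GalQ) {E : Fld} (Φ : Set (Emb E)) : Prop :=
  ∀ φ, φ ∈ Φ ↔ act c φ ∉ Φ

/-- Colmez's class function `a⁰_{E,ψ,Φ}`: the proportion of the embeddings `η` of `K` (the cosets of
`G K`; `η` is the restriction of `x.out`) with `η̃⁻¹ g η̃ ψ ∈ Φ`. -/
noncomputable def a0 {E : Fld} (K : Fld) (ψ : Emb E) (Φ : Set (Emb E)) (g : GalQ) : ℚ :=
  (Nat.card {x : GalQ ⧸ G K // act (x.out⁻¹ * g * x.out) ψ ∈ Φ} : ℚ) / deg K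

/-- **The heights and the logarithmic derivatives**: `ht ψ Φ` is the height `ht(E, ψ, Φ)`, `Z a` is
`Z^∞(a^*, 0)`, and Colmez's linear map `h` computes `ht` by `a⁰` (Colmez's theorem). The two linear maps
are extended to all functions. -/
structure ColmezData (c : GalQ) where
  ht : {E : Fld} → Emb E → Set (Emb E) → ℝ
  h : (GalQ → ℚ) →ₗ[ℚ] ℝ
  Z : (GalQ → ℚ) →ₗ[ℚ] ℝ
  colmez : ∀ {E : Fld} (K : Fld) (ψ : Emb E) (Φ : Set (Emb E)), IsCM c E → IsType c Φ → Over K E →
    ht ψ Φ = h (a0 K ψ Φ)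

/-- **The product formula** for `(E, ψ, Φ)`: `ht(E, ψ, Φ) = Z^∞((a⁰_{E,ψ,Φ})^*, 0)`, for all finite
Galois extensions `K ⊃ E` of `ℚ`. -/
def ColmezData.Holds {c : GalQ} (T : ColmezData c) {E : Fld} (ψ : Emb E) (Φ : Set (Emb E)) : Prop :=
  ∀ K : Fld, Over K E → T.ht ψ Φ = T.Z (a0 K ψ Φ)

/-- The CM types of `E`. -/
def types (c : GalQ) (E : Fld) : Set (Set (Emb E)) := {Φ | IsType c Φ}

/-- The CM types `Φ` of `E` for which the product formula holds for `(E, ψ, Φ)`. -/
def ColmezData.good {c : GalQ} (T : ColmezData c) {E : Fld} (ψ : Emb E) : Set (Set (Emb E)) :=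
  {Φ | IsType c Φ ∧ T.Holds ψ Φ}

/-- The CM type `Φ` with `φ` and its complex conjugate exchanged. -/
def swap (c : GalQ) {E : Fld} (φ : Emb E) (Φ : Set (Emb E)) : Set (Emb E) :=
  {x | (x ≠ φ ∧ x ≠ act c φ ∧ x ∈ Φ) ∨ ((x = φ ∨ x = act c φ) ∧ x ∉ Φ)}

end Pool.Agent.X208.CZ
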