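import Pool.Agent.X208.CZ.Main

/-!
# The half law for Colmez's product formula
-/

set_option autoImplicit false

open Module

namespace Pool.Agent.X208.CZ

open Pool.Agent.X208.BR (Qb GK)
open Pool.Agent.X208.BR.Pk

variable {c : GalQ} {E : Fld}

section

variable (T : ColmezData c) (hc : IsConj c) (hE : IsCM c E) (ψ : Emb E)

/-- The weight of an embedding. -/
noncomputable def wgt (K : Fld) (φ : Emb E) : ℝ := T.h (a0 K ψ {φ}) - T.Z (a0 K ψ {φ})

open Classical in
theorem defect_eq [Fintype (Emb E)] {K : Fld} (hK : Over K E) (Φ : Set (Emb E)) :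
    T.h (a0 K ψ Φ) - T.Z (a0 K ψ Φ) = wt (wgt T ψ K) Φ.toFinset := by
  rw [a0_sum hK.fin ψ Φ, map_sum, map_sum, ← Finset.sum_sub_distrib]
  unfold wt
  refine Finset.sum_congr rfl fun φ _ => ?_
  by_cases h : φ ∈ Φ
  · rw [if_pos h, if_pos (Set.mem_toFinset.2 h)]
    rfl
  · rw [if_neg h, if_neg (fun h' => h (Set.mem_toFinset.1 h'))]
    simp

open Classical in
include hE in
theorem holds_iff [Fintype (Emb E)] {K : Fld} (hK : Over K E) {Φ : Set (Emb E)}
    (hΦ : IsType c Φ) : T.Holds ψ Φ ↔ wt (wgt T ψ K) Φ.toFinset = 0 := by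
  rw [← defect_eq T ψ hK Φ, ← T.colmez K ψ Φ hE hΦ hK, sub_eq_zero]
  constructor
  · intro h
    exact h K hK
  · intro h K' hK'
    rw [h, a0_indep hK hK']

open Classical in
theorem isT_iff [Fintype (Emb E)] (Φ : Set (Emb E)) :
    IsT (fun φ : Emb E => act c φ) Φ.toFinset ↔ IsType c Φ := by
  unfold IsT IsType
  simp only [Set.mem_toFinset]

open Classical in
theorem types_card [Fintype (Emb E)] :
    (types c E).ncard = (Ts fun φ : Emb E => act c φ).card := by
  rw [← Set.ncard_coe_finset, ← Set.ncard_image_of_injective _ (Finset.coe_injective (α := Emb E))]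
  congr 1
  ext Φ
  constructor
  · intro h
    refine ⟨Φ.toFinset, ?_, Set.coe_toFinset Φ⟩
    simp only [Ts, Finset.coe_filter, Finset.mem_univ, true_and, Set.mem_setOf_eq]
    exact (isT_iff Φ).2 h
  · rintro ⟨F, hF, rfl⟩
    simp only [Ts, Finset.coe_filter, Finset.mem_univ, true_and, Set.mem_setOf_eq] at hF
    exact fun φ => hF φ

open Classical in
include hE in
theorem good_card [Fintype (Emb E)] {K : Fld} (hK : Over K E) :
    (T.good ψ).ncard =
      ((Ts fun φ : Emb E => act c φ).filter fun Φ => wt (wgt T ψ K) Φ = 0).card := by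
  rw [← Set.ncard_coe_finset, ← Set.ncard_image_of_injective _ (Finset.coe_injective (α := Emb E))]
  congr 1
  ext Φ
  constructor
  · rintro ⟨h, h'⟩
    refine ⟨Φ.toFinset, ?_, Set.coe_toFinset Φ⟩
    simp only [Ts, Finset.coe_filter, Finset.mem_filter, Finset.mem_univ, true_and,
      Set.mem_setOf_eq]
    exact ⟨(isT_iff Φ).2 h, (holds_iff T hE ψ hK h).1 h'⟩
  · rintro ⟨F, hF, rfl⟩
    simp only [Ts, Finset.coe_filter, Finset.mem_filter, Finset.mem_univ, true_and,
      Set.mem_setOf_eq] at hF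
    have h2 : IsType c (F : Set (Emb E)) := fun φ => hF.1 φ
    refine ⟨h2, (holds_iff T hE ψ hK h2).2 ?_⟩
    rw [← hF.2]
    congr 1
    ext x
    simp

include hc hE in
/-- **The half law.** -/
theorem half_law {Φ₀ : Set (Emb E)} (h₀ : IsType c Φ₀) (hne : ¬ T.Holds ψ Φ₀) :
    2 * (T.good ψ).ncard ≤ (types c E).ncard := by
  classical
  have : Finite (Emb E) := finite_emb hE.1
  haveI : Fintype (Emb E) := Fintype.ofFinite _
  obtain ⟨K, hK⟩ := exists_level hE.1
  rw [types_card, good_card T hE ψ hK]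
  refine half (act_act hc) (act_ne hE) _ ((isT_iff Φ₀).2 h₀) fun h => hne ?_
  exact (holds_iff T hE ψ hK h₀).2 h

open Classical in
theorem swap_eq [Fintype (Emb E)] (hc : IsConj c) (hE : IsCM c E) (φ : Emb E)
    {Φ : Set (Emb E)} (hΦ : IsType c Φ) : (swap c φ Φ).toFinset =
      flip (fun φ : Emb E => act c φ) {φ} (fun _ => true) Φ.toFinset := by
  ext x
  rw [mem_flip, Set.mem_toFinset]
  have h1 : ext (fun φ : Emb E => act c φ) {φ} (fun _ => true) x = true ↔
      x = φ ∨ x = act c φ := by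
    unfold ext
    have h2 : act c x = φ ↔ x = act c φ :=
      ⟨fun h => by rw [← h, act_act hc], fun h => by rw [h, act_act hc]⟩
    by_cases h3 : x = φ
    · have h4 : x ∈ ({φ} : Finset (Emb E)) := Finset.mem_singleton.2 h3
      rw [dif_pos h4]
      simp [h3]
    · have h4 : x ∉ ({φ} : Finset (Emb E)) := fun h => h3 (Finset.mem_singleton.1 h)
      rw [dif_neg h4]
      by_cases h5 : x = act c φ
      · have h6 : act c x ∈ ({φ} : Finset (Emb E)) := Finset.mem_singleton.2 (h2.2 h5)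
        rw [dif_pos h6]
        simp [h5]
      · have h6 : act c x ∉ ({φ} : Finset (Emb E)) :=
          fun h => h5 (h2.1 (Finset.mem_singleton.1 h))
        rw [dif_neg h6]
        simp [h3, h5]
  simp only [swap, Set.mem_setOf_eq]
  by_cases h2 : x = φ ∨ x = act c φ
  · have h3 := h1.2 h2
    rw [h3]
    by_cases h4 : x ∈ Φ
    · simp [h2, h4]
      tauto
    · simp [h2, h4]
  · have h3 : ext (fun φ : Emb E => act c φ) {φ} (fun _ => true) x = false := by
      rw [← Bool.not_eq_true, h1]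
      exact h2
    rw [h3]
    push Not at h2
    by_cases h4 : x ∈ Φ <;> simp [h2, h4]

open Classical in
theorem wt_swap [Fintype (Emb E)] (hc : IsConj c) (hE : IsCM c E) (w : Emb E → ℝ) (φ : Emb E)
    {Φ : Set (Emb E)} (hΦ : IsType c Φ) : wt w (swap c φ Φ).toFinset = wt w Φ.toFinset +
      if φ ∈ Φ then w (act c φ) - w φ else w φ - w (act c φ) := by
  rw [swap_eq hc hE φ hΦ, wt_flip (act_act hc) (act_ne hE) w {φ} (by
    intro i hi j hj
    rw [Finset.mem_singleton] at hi hj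
    rw [hi, hj]
    exact (act_ne hE φ).symm) (fun _ => true) ((isT_iff Φ).2 hΦ)]
  simp

theorem swap_isType (hc : IsConj c) (hE : IsCM c E) (φ : Emb E) {Φ : Set (Emb E)}
    (hΦ : IsType c Φ) : IsType c (swap c φ Φ) := by
  classical
  have : Finite (Emb E) := finite_emb hE.1
  haveI : Fintype (Emb E) := Fintype.ofFinite _
  rw [← isT_iff, swap_eq hc hE φ hΦ]
  exact flip_isT (act_act hc) _ _ ((isT_iff Φ).2 hΦ)

include hc hE in
/-- **The Littlewood–Offord law.** -/
theorem lo_law (s : Set (Emb E)) (hs : ∀ i ∈ s, ∀ j ∈ s, i ≠ act c j)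
    (hw : ∀ i ∈ s, ∃ Φ, IsType c Φ ∧ ¬ (T.Holds ψ Φ ↔ T.Holds ψ (swap c i Φ))) :
    2 ^ s.ncard * (T.good ψ).ncard ≤ s.ncard.choose (s.ncard / 2) * (types c E).ncard := by
  classical
  have : Finite (Emb E) := finite_emb hE.1
  haveI : Fintype (Emb E) := Fintype.ofFinite _
  obtain ⟨K, hK⟩ := exists_level hE.1
  rw [types_card, good_card T hE ψ hK]
  have h1 := count (act_act hc) (act_ne hE) (wgt T ψ K) s.toFinset (by
    intro i hi j hj
    exact hs i (Set.mem_toFinset.1 hi) j (Set.mem_toFinset.1 hj)) (by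
    intro i hi he
    obtain ⟨Φ, hΦ, h2⟩ := hw i (Set.mem_toFinset.1 hi)
    apply h2
    rw [holds_iff T hE ψ hK hΦ, holds_iff T hE ψ hK (swap_isType hc hE i hΦ),
      wt_swap hc hE _ i hΦ, he]
    simp) 0
  have h2 : s.toFinset.card = s.ncard := by
    rw [Set.ncard_eq_toFinset_card']
  rw [h2] at h1
  exact h1

include hc hE in
/-- **Swaps suffice.** -/
theorem swaps_suffice {Φ₀ : Set (Emb E)} (h₀ : IsType c Φ₀) (hh : T.Holds ψ Φ₀)
    (hsw : ∀ φ ∈ Φ₀, T.Holds ψ (swap c φ Φ₀)) {Φ : Set (Emb E)} (hΦ : IsType c Φ) :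
    T.Holds ψ Φ := by
  classical
  have : Finite (Emb E) := finite_emb hE.1
  haveI : Fintype (Emb E) := Fintype.ofFinite _
  obtain ⟨K, hK⟩ := exists_level hE.1
  rw [holds_iff T hE ψ hK h₀] at hh
  have h1 : ∀ φ ∈ Φ₀, wgt T ψ K (act c φ) = wgt T ψ K φ := by
    intro φ hφ
    have h2 := hsw φ hφ
    rw [holds_iff T hE ψ hK (swap_isType hc hE φ h₀), wt_swap hc hE _ φ h₀, hh, if_pos hφ,
      zero_add] at h2
    exact sub_eq_zero.1 h2
  have h2 : ∀ φ, wgt T ψ K (act c φ) = wgt T ψ K φ := by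
    intro φ
    by_cases hφ : φ ∈ Φ₀
    · exact h1 φ hφ
    · have h3 : act c φ ∈ Φ₀ := by
        by_contra h4
        exact hφ ((h₀ φ).2 h4)
      have h4 := h1 _ h3
      rw [act_act hc] at h4
      exact h4.symm
  rw [holds_iff T hE ψ hK hΦ]
  have h3 := wt_const (act_act hc) _ h2 ((isT_iff Φ).2 hΦ)
  have h4 := wt_const (act_act hc) _ h2 ((isT_iff Φ₀).2 h₀)
  rw [hh, mul_zero] at h4
  rw [← h4] at h3
  linarith

end

section

variable (T : ColmezData c)

/-- The induced CM type. -/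
def indType {E E' : Fld} (h : E ≤ E') (Φ : Set (Emb E)) : Set (Emb E') := {φ | resEmb h φ ∈ Φ}

theorem resEmb_act {E E' : Fld} (h : E ≤ E') (σ : GalQ) (φ : Emb E') :
    resEmb h (act σ φ) = act σ (resEmb h φ) := rfl

theorem indType_isType {E E' : Fld} (h : E ≤ E') {Φ : Set (Emb E)} (hΦ : IsType c Φ) :
    IsType c (indType h Φ) := by
  intro φ
  change resEmb h φ ∈ Φ ↔ ¬ (resEmb h (act c φ) ∈ Φ)
  rw [resEmb_act]
  exact hΦ _

theorem a0_ind {E E' : Fld} (h : E ≤ E') (K : Fld) (ψ : Emb E') (Φ : Set (Emb E)) :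
    a0 K ψ (indType h Φ) = a0 K (resEmb h ψ) Φ := rfl

theorem holds_ind {E E' : Fld} (h : E ≤ E') (hE : IsCM c E) (hE' : IsCM c E') (ψ : Emb E')
    {Φ : Set (Emb E)} (hΦ : IsType c Φ) (hh : T.Holds ψ (indType h Φ)) :
    T.Holds (resEmb h ψ) Φ := by
  intro K hK
  obtain ⟨K', hK'⟩ := exists_level hE'.1
  have hK'' : Over K' E := ⟨h.trans hK'.le, hK'.fin, hK'.normal⟩
  have h1 := hh K' hK'
  rw [T.colmez K' ψ _ hE' (indType_isType h hΦ) hK', a0_ind] at h1
  rw [T.colmez K' (resEmb h ψ) Φ hE hΦ hK'', h1, a0_indep hK'' hK]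

end

/-- There is a CM type. -/
theorem types_pos {E : Fld} (hc : IsConj c) (hE : IsCM c E) : 0 < (types c E).ncard := by
  classical
  have : Finite (Emb E) := finite_emb hE.1
  have hfin : (types c E).Finite := Set.toFinite _
  rw [Set.ncard_pos hfin]
  -- a linear order on the embeddings
  obtain ⟨n, ⟨e⟩⟩ := Finite.exists_equiv_fin (Emb E)
  refine ⟨{φ | e φ < e (act c φ)}, fun φ => ?_⟩
  simp only [Set.mem_setOf_eq, act_act hc, not_lt]
  constructor
  · exact fun h => h.le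
  · intro h
    exact lt_of_le_of_ne h fun h1 => act_ne hE φ (e.injective h1).symm

end Pool.Agent.X208.CZ
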