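import Pool.Agent.X208.CZ.Defs
import Pool.Agent.X208.CZ.Comb
import Pool.Agent.X208.BR.Conv

/-!
# Colmez's class functions: additivity and change of the field
-/

set_option autoImplicit false

open Module

namespace Pool.Agent.X208.CZ

open Pool.Agent.X208.BR (Qb GK)
open Pool.Agent.X208.BR.Pk

variable {c : GalQ} {E : Fld}

theorem emb_ext {ψ φ : Emb E}
    (h : ∀ x : (show IntermediateField ℚ (AlgebraicClosure ℚ) from E),
      (show _ →+* AlgebraicClosure ℚ from ψ) x = (show _ →+* AlgebraicClosure ℚ from φ) x) :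
    ψ = φ := RingHom.ext h

theorem act_mul (σ τ : GalQ) (ψ : Emb E) : act (σ * τ) ψ = act σ (act τ ψ) := rfl

theorem act_one (ψ : Emb E) : act (1 : GalQ) ψ = ψ := rfl

theorem act_inv_act (σ : GalQ) (ψ : Emb E) : act σ⁻¹ (act σ ψ) = ψ := by
  rw [← act_mul, inv_mul_cancel, act_one]

theorem finite_emb (hE : IsNF E) : Finite (Emb E) := by
  have h1 : FiniteDimensional ℚ (show IntermediateField ℚ (AlgebraicClosure ℚ) from E) := hE
  have h2 : Finite ((show IntermediateField ℚ (AlgebraicClosure ℚ) from E) →ₐ[ℚ]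
      AlgebraicClosure ℚ) := inferInstance
  exact Finite.of_equiv _ (RingHom.equivRatAlgHom
    (R := (show IntermediateField ℚ (AlgebraicClosure ℚ) from E))
    (S := AlgebraicClosure ℚ)).symm

theorem conj_sq (hc : IsConj c) : c * c = 1 := by
  obtain ⟨ι, h⟩ := hc
  refine AlgEquiv.ext fun x => ι.injective ?_
  have h1 := h ((show Gal(AlgebraicClosure ℚ/ℚ) from c) x)
  rw [h x] at h1
  rw [starRingEnd_self_apply] at h1
  exact h1

theorem act_act (hc : IsConj c) (ψ : Emb E) : act c (act c ψ) = ψ := by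
  rw [← act_mul, conj_sq hc, act_one]

theorem act_ne (hE : IsCM c E) (ψ : Emb E) : act c ψ ≠ ψ := by
  obtain ⟨-, ρ, h1, h2⟩ := hE
  intro h
  apply h1
  have h3 := h2 ψ
  rw [h] at h3
  refine RingHom.ext fun x => ?_
  have h4 := congrArg (fun f : Emb E => (show _ →+* AlgebraicClosure ℚ from f) x) h3
  exact ((show _ →+* AlgebraicClosure ℚ from ψ).injective h4).symm

/-- The Galois group of `K` acts trivially on the embeddings of `E ⊂ K`, `K/ℚ` Galois. -/
theorem act_trivial {K : Fld} (h : Over K E) {σ : GalQ} (hσ : σ ∈ G K) (ψ : Emb E) :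
    act σ ψ = ψ := by
  refine emb_ext fun x => ?_
  have h1 : (show _ →+* AlgebraicClosure ℚ from ψ) x ∈
      (show IntermediateField ℚ (AlgebraicClosure ℚ) from K) := by
    have hint : IsIntegral ℚ (x : AlgebraicClosure ℚ) :=
      (Pool.Agent.X208.BR.alg1).isAlgebraic (x : AlgebraicClosure ℚ) |>.isIntegral
    have h2 : Polynomial.aeval ((show _ →+* AlgebraicClosure ℚ from ψ) x)
        (minpoly ℚ (x : AlgebraicClosure ℚ)) = 0 := by
      have h3 : minpoly ℚ (x : AlgebraicClosure ℚ) = minpoly ℚ x :=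
        minpoly.algHom_eq (IntermediateField.val
          (show IntermediateField ℚ (AlgebraicClosure ℚ) from E)) Subtype.val_injective x
      rw [h3]
      have h4 := Polynomial.aeval_algHom_apply
        ((show _ →+* AlgebraicClosure ℚ from ψ).toRatAlgHom) x (minpoly ℚ x)
      rw [minpoly.aeval, map_zero] at h4
      exact h4
    obtain ⟨τ, hτ⟩ := minpoly.exists_algEquiv_of_root' hint.isAlgebraic h2
    have hn : Normal ℚ (show IntermediateField ℚ (AlgebraicClosure ℚ) from K) := h.normal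
    have h5 := (IntermediateField.normal_iff_forall_map_le'
      (K := (show IntermediateField ℚ (AlgebraicClosure ℚ) from K))).1 hn τ
    rw [← hτ]
    exact h5 ⟨x, h.le x.2, rfl⟩
  exact (IntermediateField.mem_fixingSubgroup_iff _ _).1 hσ _ h1

/-- The number of the cosets in the definition of `a⁰`. -/
theorem a0_mono {K K' : Fld} (h : Over K E) (h' : Over K' E) (hK : K ≤ K') (ψ : Emb E)
    (Φ : Set (Emb E)) (g : GalQ) : a0 K' ψ Φ g = a0 K ψ Φ g := by
  classical
  have hle : G K' ≤ G K := G_anti hK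
  have hidx : ∀ L : Fld, deg L = (G L).index := fun L =>
    IntermediateField.finrank_eq_fixingSubgroup_index (F := ℚ) (E' := Qb)
      (L := (show IntermediateField ℚ (AlgebraicClosure ℚ) from L))
  have hne : ∀ L : Fld, IsNF L → (G L).index ≠ 0 := fun L hL => BR.index_ne_zero hL
  -- the condition does not depend on the representative
  have hP : ∀ (x y : GalQ), x⁻¹ * y ∈ G K →
      (act (y⁻¹ * g * y) ψ ∈ Φ ↔ act (x⁻¹ * g * x) ψ ∈ Φ) := by
    intro x y hxy
    have h1 : y⁻¹ * g * y = (x⁻¹ * y)⁻¹ * (x⁻¹ * g * x) * (x⁻¹ * y) := by group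
    rw [h1, act_mul, act_mul, act_trivial h hxy, act_trivial h ((G K).inv_mem hxy)]
  let P : GalQ ⧸ G K → Prop := fun x => act (x.out⁻¹ * g * x.out) ψ ∈ Φ
  have hP' : ∀ x : GalQ ⧸ G K', act (x.out⁻¹ * g * x.out) ψ ∈ Φ ↔
      P (Subgroup.quotientEquivProdOfLE hle x).1 := by
    intro x
    have h1 : (Subgroup.quotientEquivProdOfLE hle x).1 = (QuotientGroup.mk x.out : GalQ ⧸ G K) := by
      conv_lhs => rw [← QuotientGroup.out_eq' x]
      rfl
    rw [h1]
    refine (hP _ _ ?_)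
    exact QuotientGroup.eq.1 (QuotientGroup.out_eq' _)
  have hcard : Nat.card {x : GalQ ⧸ G K' // act (x.out⁻¹ * g * x.out) ψ ∈ Φ} =
      Nat.card {x : GalQ ⧸ G K // P x} * (G K').relIndex (G K) := by
    have e1 : {x : GalQ ⧸ G K' // act (x.out⁻¹ * g * x.out) ψ ∈ Φ} ≃
        {y : (GalQ ⧸ G K) × (G K ⧸ (G K').subgroupOf (G K)) // P y.1} :=
      (Subgroup.quotientEquivProdOfLE hle).subtypeEquiv hP'
    have e2 : {y : (GalQ ⧸ G K) × (G K ⧸ (G K').subgroupOf (G K)) // P y.1} ≃
        {x : GalQ ⧸ G K // P x} × (G K ⧸ (G K').subgroupOf (G K)) :=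
      { toFun := fun y => (⟨y.1.1, y.2⟩, y.1.2)
        invFun := fun z => ⟨(z.1.1, z.2), z.1.2⟩
        left_inv := fun y => rfl
        right_inv := fun z => rfl }
    rw [Nat.card_congr (e1.trans e2), Nat.card_prod]
    rfl
  unfold a0
  rw [hcard]
  have h3 : (deg K' : ℚ) = (G K').relIndex (G K) * deg K := by
    rw [hidx, hidx, ← Subgroup.relIndex_mul_index hle]
    push_cast
    ring
  have h4 : ((G K').relIndex (G K) : ℚ) ≠ 0 := by
    intro h5
    have h6 : (G K').relIndex (G K) = 0 := by exact_mod_cast h5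
    have h7 := Subgroup.relIndex_mul_index hle
    rw [h6, zero_mul] at h7
    exact hne K' h'.fin h7.symm
  have h5 : (deg K : ℚ) ≠ 0 := by
    rw [hidx]
    exact_mod_cast hne K h.fin
  rw [h3]
  push_cast
  change _ = (Nat.card {x : GalQ ⧸ G K // P x} : ℚ) / _
  field_simp

theorem exists_common {K K' : Fld} (h : Over K E) (h' : Over K' E) :
    ∃ L : Fld, Over L E ∧ K ≤ L ∧ K' ≤ L := by
  obtain ⟨L, h1, h2, h3⟩ := BR.StarkSystem.exists_common ((BR.Pk.over_iff K E).1 h)
    ((BR.Pk.over_iff K' E).1 h')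
  exact ⟨L, (BR.Pk.over_iff L E).2 h1, h2, h3⟩

theorem a0_indep {K K' : Fld} (h : Over K E) (h' : Over K' E) (ψ : Emb E) (Φ : Set (Emb E)) :
    a0 K ψ Φ = a0 K' ψ Φ := by
  obtain ⟨L, h1, h2, h3⟩ := exists_common h h'
  funext g
  rw [← a0_mono h h1 h2, ← a0_mono h' h1 h3]

theorem exists_level (hE : IsNF E) : ∃ K : Fld, Over K E := by
  obtain ⟨L, h1, -⟩ := BR.exists_over (show IntermediateField ℚ Qb from E)
    (show IntermediateField ℚ Qb from E) hE hE
  exact ⟨L, (BR.Pk.over_iff L E).2 h1⟩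

open Classical in
/-- `a⁰` is additive in `Φ`. -/
theorem a0_sum [Fintype (Emb E)] {K : Fld} (hK : IsNF K) (ψ : Emb E) (Φ : Set (Emb E)) :
    a0 K ψ Φ = ∑ φ, if φ ∈ Φ then a0 K ψ {φ} else 0 := by
  have hfin : Finite (GalQ ⧸ G K) := Nat.finite_of_card_ne_zero (BR.index_ne_zero hK)
  have : Fintype (GalQ ⧸ G K) := Fintype.ofFinite _
  funext g
  rw [Finset.sum_apply]
  have h1 : ∀ S : Set (Emb E), (Nat.card {x : GalQ ⧸ G K // act (x.out⁻¹ * g * x.out) ψ ∈ S} : ℚ) =
      ∑ x : GalQ ⧸ G K, if act (x.out⁻¹ * g * x.out) ψ ∈ S then 1 else 0 := by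
    intro S
    rw [Nat.card_eq_fintype_card, Fintype.card_subtype, Finset.card_filter]
    push_cast
    rfl
  have h2 : ∀ φ : Emb E, (if φ ∈ Φ then a0 K ψ {φ} else 0 : GalQ → ℚ) g =
      (∑ x : GalQ ⧸ G K, if act (x.out⁻¹ * g * x.out) ψ = φ ∧ φ ∈ Φ then (1 : ℚ) else 0) /
        deg K := by
    intro φ
    by_cases hφ : φ ∈ Φ
    · rw [if_pos hφ]
      unfold a0
      rw [h1]
      congr 1
      refine Finset.sum_congr rfl fun x _ => ?_
      simp [hφ]
    · rw [if_neg hφ]
      simp [hφ]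
  rw [Finset.sum_congr rfl fun φ _ => h2 φ, ← Finset.sum_div, Finset.sum_comm]
  unfold a0
  rw [h1]
  congr 1
  refine Finset.sum_congr rfl fun x _ => ?_
  by_cases hx : act (x.out⁻¹ * g * x.out) ψ ∈ Φ
  · rw [if_pos hx, Finset.sum_eq_single (act (x.out⁻¹ * g * x.out) ψ)]
    · simp [hx]
    · intro φ _ hne
      rw [if_neg (fun h => hne h.1.symm)]
    · intro h
      exact absurd (Finset.mem_univ _) h
  · rw [if_neg hx, Finset.sum_eq_zero]
    intro φ _
    rw [if_neg]
    rintro ⟨rfl, h⟩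
    exact hx h

end Pool.Agent.X208.CZ
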